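import Mathlib

/-!
# Small subsets witnessing discrete Brunn-Minkowski growth: no constant independent of epsilon

For every `k ≥ 4` there is no constant `c = c(k)` with the property asked for. The sets `A` are the
lattice points of a convex body with a paraboloid as part of its boundary. If a point of the sumset
lies near that part of the boundary, then the two summands lie close to each other. Splitting the
boundary region into small cells shows that a subset `A'` needs many points in most cells, and for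
`k ≥ 4` the total is much larger than `√n`.
-/

set_option autoImplicit false

namespace Pool.Agent.Results.MP_0aa4f4_co.NoUniformConstant

open Finset
open scoped Pointwise

noncomputable section

/-- `A` is contained in `t` parallel hyperplanes: there are a nonzero real vector `v` and reals
`s_1, ..., s_t` such that for every `a ∈ A` the inner product `⟨v, a⟩` is one of the `s_j`. -/
def InParallelHyperplanes (k t : ℕ) (A : Finset (Fin k → ℤ)) : Prop :=
  ∃ (v : Fin k → ℝ) (s : Fin t → ℝ), v ≠ 0 ∧ ∀ a ∈ A, ∃ j, ∑ i, v i * (a i : ℝ) = s j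

/-- sum of the squares of the last `m` coordinates -/
def sq {m : ℕ} (x : Fin (m + 1) → ℤ) : ℤ := ∑ i : Fin m, (x i.succ) ^ 2

/-- box `[a, b] × [-l, l]^m` -/
def box (m : ℕ) (a b l : ℤ) : Finset (Fin (m + 1) → ℤ) :=
  Fintype.piFinset (Fin.cons (Finset.Icc a b) (fun _ : Fin m => Finset.Icc (-l) l) :
    Fin (m + 1) → Finset ℤ)

theorem mem_box {m : ℕ} {a b l : ℤ} {x : Fin (m + 1) → ℤ} :
    x ∈ box m a b l ↔ (a ≤ x 0 ∧ x 0 ≤ b) ∧ ∀ i : Fin m, -l ≤ x i.succ ∧ x i.succ ≤ l := by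
  unfold box
  rw [Fintype.mem_piFinset, Fin.forall_fin_succ]
  simp

theorem card_box (m : ℕ) (a b l : ℤ) :
    (box m a b l).card = (b + 1 - a).toNat * (2 * l + 1).toNat ^ m := by
  unfold box
  rw [Fintype.card_piFinset, Fin.prod_univ_succ]
  simp
  left
  congr 1
  ring_nf

/-- the body: lattice points with `|y|² ≤ z` in the box -/
def body (m : ℕ) (L : ℤ) : Finset (Fin (m + 1) → ℤ) :=
  (box m 0 (2 * m * L ^ 2) L).filter (fun x => sq x ≤ x 0)

/-- a superset of the doubled body -/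
def dbl (m : ℕ) (L : ℤ) : Finset (Fin (m + 1) → ℤ) :=
  (box m 0 (2 * (2 * m * L ^ 2)) (2 * L)).filter (fun x => sq x ≤ 2 * x 0)

theorem mem_body {m : ℕ} {L : ℤ} {x : Fin (m + 1) → ℤ} :
    x ∈ body m L ↔ ((0 ≤ x 0 ∧ x 0 ≤ 2 * m * L ^ 2) ∧ ∀ i : Fin m, -L ≤ x i.succ ∧ x i.succ ≤ L)
      ∧ sq x ≤ x 0 := by
  unfold body
  rw [Finset.mem_filter, mem_box]

theorem mem_dbl {m : ℕ} {L : ℤ} {x : Fin (m + 1) → ℤ} :
    x ∈ dbl m L ↔ ((0 ≤ x 0 ∧ x 0 ≤ 2 * (2 * m * L ^ 2)) ∧
      ∀ i : Fin m, -(2 * L) ≤ x i.succ ∧ x i.succ ≤ 2 * L) ∧ sq x ≤ 2 * x 0 := by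
  unfold dbl
  rw [Finset.mem_filter, mem_box]

theorem sq_nonneg' {m : ℕ} (x : Fin (m + 1) → ℤ) : 0 ≤ sq x :=
  Finset.sum_nonneg (fun _ _ => sq_nonneg _)

theorem sq_le {m : ℕ} {L : ℤ} {x : Fin (m + 1) → ℤ}
    (h : ∀ i : Fin m, -L ≤ x i.succ ∧ x i.succ ≤ L) : sq x ≤ m * L ^ 2 := by
  unfold sq
  calc ∑ i : Fin m, (x i.succ) ^ 2 ≤ ∑ _i : Fin m, L ^ 2 := by
        apply Finset.sum_le_sum
        intro i _
        have := h i
        nlinarith
    _ = m * L ^ 2 := by simp

/-- parallelogram identity -/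
theorem sq_add_sub {m : ℕ} (a b : Fin (m + 1) → ℤ) :
    2 * sq a + 2 * sq b = sq (a + b) + sq (a - b) := by
  unfold sq
  rw [Finset.mul_sum, Finset.mul_sum, ← Finset.sum_add_distrib, ← Finset.sum_add_distrib]
  apply Finset.sum_congr rfl
  intro i _
  simp only [Pi.add_apply, Pi.sub_apply]
  ring

theorem body_add_subset (m : ℕ) (L : ℤ) : body m L + body m L ⊆ dbl m L := by
  intro x hx
  rw [Finset.mem_add] at hx
  obtain ⟨a, ha, b, hb, rfl⟩ := hx
  rw [mem_body] at ha hb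
  rw [mem_dbl]
  obtain ⟨⟨⟨ha1, ha2⟩, ha3⟩, ha4⟩ := ha
  obtain ⟨⟨⟨hb1, hb2⟩, hb3⟩, hb4⟩ := hb
  have h := sq_add_sub a b
  have h' := sq_nonneg' (a - b)
  simp only [Pi.add_apply]
  refine ⟨⟨⟨by linarith, by linarith⟩, fun i => ?_⟩, by linarith⟩
  have h1 := ha3 i
  have h2 := hb3 i
  constructor <;> linarith

/-- the slightly enlarged body -/
def big (m : ℕ) (L : ℤ) : Finset (Fin (m + 1) → ℤ) :=
  (box m 0 (2 * m * L ^ 2) L).filter (fun x => sq x - m * L ≤ x 0)

theorem card_dbl_le (m : ℕ) (L : ℤ) (hL : 0 ≤ L) :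
    (dbl m L).card ≤ 2 ^ (m + 1) * (big m L).card := by
  have hc : ((big m L) ×ˢ (Fintype.piFinset (fun _ : Fin (m + 1) => Finset.Ico (0 : ℤ) 2))).card
      = 2 ^ (m + 1) * (big m L).card := by
    rw [Finset.card_product, Fintype.card_piFinset]
    simp
    ring
  rw [← hc]
  apply Finset.card_le_card_of_injOn (fun x => ((fun i => x i / 2), (fun i => x i % 2)))
  · intro x hx
    have hx := mem_dbl.1 (Finset.mem_coe.1 hx)
    obtain ⟨⟨⟨hx1, hx2⟩, hx3⟩, hx4⟩ := hx
    simp only [Finset.coe_product, Set.mem_prod, Finset.mem_coe]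
    constructor
    · unfold big
      rw [Finset.mem_filter, mem_box]
      refine ⟨⟨⟨by omega, ?_⟩, fun i => ?_⟩, ?_⟩
      · have h1 : x 0 / 2 ≤ (2 * (2 * m * L ^ 2)) / 2 := Int.ediv_le_ediv (by norm_num) hx2
        have h2 : (2 * (2 * (m : ℤ) * L ^ 2)) / 2 = 2 * m * L ^ 2 :=
          Int.mul_ediv_cancel_left _ (by norm_num)
        rw [h2] at h1
        exact h1
      · have := hx3 i
        constructor <;> omega
      · have hs : 4 * sq (fun i => x i / 2) - 4 * (m * L) ≤ sq x := by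
          unfold sq
          have : (4 : ℤ) * (m * L) = ∑ _i : Fin m, 4 * L := by simp; ring
          rw [this, Finset.mul_sum, ← Finset.sum_sub_distrib]
          apply Finset.sum_le_sum
          intro i _
          have h := hx3 i
          obtain ⟨p, hp⟩ : ∃ p, p = x i.succ / 2 := ⟨_, rfl⟩
          obtain ⟨e, he⟩ : ∃ e, e = x i.succ % 2 := ⟨_, rfl⟩
          have hxe : x i.succ = 2 * p + e := by omega
          have he0 : 0 ≤ e := by omega
          have he1 : e ≤ 1 := by omega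
          have hp1 : -L ≤ p := by omega
          simp only
          rw [← hp, hxe]
          nlinarith [mul_nonneg he0 (by linarith : 0 ≤ L + p), sq_nonneg e,
            mul_nonneg (by linarith : 0 ≤ 1 - e) hL]
        simp only
        omega
    · rw [Fintype.mem_piFinset]
      intro i
      simp only [Finset.mem_Ico]
      omega
  · intro x _ y _ hxy
    simp only [Prod.mk.injEq] at hxy
    funext i
    have h1 := congrFun hxy.1 i
    have h2 := congrFun hxy.2 i
    omega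

theorem card_big_le (m : ℕ) (L : ℤ) :
    (big m L).card ≤ (body m L).card + (m * L).toNat * (2 * L + 1).toNat ^ m := by
  have hsub : big m L ⊆ body m L ∪ (big m L).filter (fun x => ¬ sq x ≤ x 0) := by
    intro x hx
    by_cases h : sq x ≤ x 0
    · apply Finset.mem_union_left
      unfold big at hx
      unfold body
      rw [Finset.mem_filter] at hx ⊢
      exact ⟨hx.1, h⟩
    · apply Finset.mem_union_right
      rw [Finset.mem_filter]
      exact ⟨hx, h⟩
  have hc : ((Finset.Ico (0 : ℤ) (m * L)) ×ˢ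
      (Fintype.piFinset (fun _ : Fin m => Finset.Icc (-L) L))).card
      = (m * L).toNat * (2 * L + 1).toNat ^ m := by
    rw [Finset.card_product, Fintype.card_piFinset]
    simp
    left
    congr 1
    ring_nf
  have h2 : ((big m L).filter (fun x => ¬ sq x ≤ x 0)).card
      ≤ (m * L).toNat * (2 * L + 1).toNat ^ m := by
    rw [← hc]
    apply Finset.card_le_card_of_injOn (fun x => (x 0 - (sq x - m * L), fun i => x i.succ))
    · intro x hx
      have hx := Finset.mem_filter.1 (Finset.mem_coe.1 hx)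
      obtain ⟨hx1, hx2⟩ := hx
      unfold big at hx1
      rw [Finset.mem_filter, mem_box] at hx1
      simp only [Finset.coe_product, Set.mem_prod, Finset.mem_coe, Finset.mem_Ico,
        Fintype.mem_piFinset, Finset.mem_Icc]
      refine ⟨⟨by linarith [hx1.2], by linarith [not_le.1 hx2]⟩, fun i => hx1.1.2 i⟩
    · intro x _ y _ hxy
      simp only [Prod.mk.injEq] at hxy
      have hs : sq x = sq y := by
        unfold sq
        apply Finset.sum_congr rfl
        intro i _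
        have : x i.succ = y i.succ := congrFun hxy.2 i
        rw [this]
      funext i
      refine Fin.cases ?_ (fun j => ?_) i
      · have := hxy.1
        rw [hs] at this
        linarith
      · exact congrFun hxy.2 j
  calc (big m L).card ≤ (body m L ∪ (big m L).filter (fun x => ¬ sq x ≤ x 0)).card :=
        Finset.card_le_card hsub
    _ ≤ (body m L).card + ((big m L).filter (fun x => ¬ sq x ≤ x 0)).card :=
        Finset.card_union_le _ _
    _ ≤ _ := by omega

theorem card_body_le (m : ℕ) (L : ℤ) :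
    (body m L).card ≤ (2 * m * L ^ 2 + 1).toNat * (2 * L + 1).toNat ^ m := by
  have h : (body m L).card ≤ (box m 0 (2 * m * L ^ 2) L).card := Finset.card_filter_le _ _
  rw [card_box] at h
  simpa using h

theorem le_card_body (m : ℕ) (L : ℤ) :
    (m * L ^ 2 + 1).toNat * (2 * L + 1).toNat ^ m ≤ (body m L).card := by
  have h : box m (m * L ^ 2) (2 * m * L ^ 2) L ⊆ body m L := by
    intro x hx
    rw [mem_box] at hx
    rw [mem_body]
    have h1 := sq_le hx.2
    have h2 : (0 : ℤ) ≤ m * L ^ 2 := by positivity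
    exact ⟨⟨⟨by linarith [hx.1.1], hx.1.2⟩, hx.2⟩, by linarith [hx.1.1]⟩
  have h2 := Finset.card_le_card h
  rw [card_box] at h2
  have h3 : (2 * (m : ℤ) * L ^ 2 + 1 - m * L ^ 2) = m * L ^ 2 + 1 := by ring
  rw [h3] at h2
  exact h2

/-- the cells: points close to the paraboloid whose last `m` coordinates lie in a cube -/
def cell (m : ℕ) (L r : ℤ) (q : Fin m → ℤ) : Finset (Fin (m + 1) → ℤ) :=
  (dbl m L).filter (fun x => (∀ i : Fin m, 2 * r * q i ≤ x i.succ ∧ x i.succ < 2 * r * q i + 2 * r)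
    ∧ 2 * x 0 < sq x + 4 * r ^ 2)

/-- the points of `A'` near the cell `q` -/
def near {m : ℕ} (r : ℤ) (q : Fin m → ℤ) (A' : Finset (Fin (m + 1) → ℤ)) :
    Finset (Fin (m + 1) → ℤ) :=
  A'.filter (fun a => ∀ i : Fin m, r * (q i - 1) < a i.succ ∧ a i.succ < r * (q i + 2))

/-- the index set of the cells -/
def idx (m : ℕ) (G : ℤ) : Finset (Fin m → ℤ) := Fintype.piFinset (fun _ => Finset.Ico (-G) G)

theorem card_idx (m : ℕ) (G : ℤ) : (idx m G).card = (2 * G).toNat ^ m := by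
  unfold idx
  rw [Fintype.card_piFinset]
  simp
  congr 1
  ring_nf

theorem card_cell_ge (m : ℕ) (hm : 1 ≤ m) (r G : ℤ) (hr : 1 ≤ r) (hG : 1 ≤ G) (q : Fin m → ℤ)
    (hq : q ∈ idx m G) :
    (2 * r ^ 2).toNat * (2 * r).toNat ^ m ≤ (cell m (r * G) r q).card := by
  have hc : ((Finset.Ico (0 : ℤ) (2 * r ^ 2)) ×ˢ
      (Fintype.piFinset (fun _ : Fin m => Finset.Ico (0 : ℤ) (2 * r)))).card
      = (2 * r ^ 2).toNat * (2 * r).toNat ^ m := by
    rw [Finset.card_product, Fintype.card_piFinset]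
    simp
  rw [← hc]
  let s : (Fin m → ℤ) → ℤ := fun o => ∑ i, (2 * r * q i + o i) ^ 2
  apply Finset.card_le_card_of_injOn
    (fun p => (Fin.cons ((s p.2 + 1) / 2 + p.1) (fun i => 2 * r * q i + p.2 i) : Fin (m + 1) → ℤ))
  · intro p hp
    simp only [Finset.coe_product, Set.mem_prod, Finset.mem_coe, Finset.mem_Ico,
      Fintype.mem_piFinset] at hp
    obtain ⟨hp1, hp2⟩ := hp
    have hq' : ∀ i, -G ≤ q i ∧ q i < G := by
      intro i
      have := Fintype.mem_piFinset.1 hq i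
      rwa [Finset.mem_Ico] at this
    have hsq : sq (Fin.cons ((s p.2 + 1) / 2 + p.1) (fun i => 2 * r * q i + p.2 i) :
        Fin (m + 1) → ℤ) = s p.2 := by
      unfold sq
      simp [s]
    have hs0 : 0 ≤ s p.2 := Finset.sum_nonneg (fun _ _ => sq_nonneg _)
    have hb : ∀ i, -(2 * (r * G)) ≤ 2 * r * q i + p.2 i ∧ 2 * r * q i + p.2 i ≤ 2 * (r * G) := by
      intro i
      have h1 := hq' i
      have h2 := hp2 i
      constructor
      · nlinarith
      · nlinarith
    have hs1 : s p.2 ≤ m * (2 * (r * G)) ^ 2 := by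
      calc s p.2 ≤ ∑ _i : Fin m, (2 * (r * G)) ^ 2 := by
            apply Finset.sum_le_sum
            intro i _
            have := hb i
            nlinarith
        _ = _ := by simp
    have hmr : r ^ 2 ≤ m * (r * G) ^ 2 := by
      have h1 : (1 : ℤ) ≤ m := by exact_mod_cast hm
      have h2 : 1 ≤ G ^ 2 := by nlinarith
      have h3 : 0 ≤ r ^ 2 := sq_nonneg r
      calc r ^ 2 = 1 * r ^ 2 * 1 := by ring
        _ ≤ m * r ^ 2 * G ^ 2 := by
            apply mul_le_mul (mul_le_mul_of_nonneg_right h1 h3) h2 (by norm_num) (by positivity)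
        _ = _ := by ring
    rw [Finset.mem_coe]
    unfold cell
    rw [Finset.mem_filter, mem_dbl, hsq]
    simp only [Fin.cons_zero, Fin.cons_succ]
    refine ⟨⟨⟨⟨by omega, ?_⟩, hb⟩, by omega⟩, fun i => ⟨?_, ?_⟩, by omega⟩
    · have : 2 * (2 * (m : ℤ) * (r * G) ^ 2) = m * (2 * (r * G)) ^ 2 := by ring
      rw [this]
      have h4 : (s p.2 + 1) / 2 + p.1 ≤ (s p.2 + 1) / 2 + (2 * r ^ 2 - 1) := by linarith [hp1.2]
      have h5 : 2 * ((s p.2 + 1) / 2) ≤ s p.2 + 1 := by omega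
      nlinarith
    · linarith [(hp2 i).1]
    · linarith [(hp2 i).2]
  · intro p _ p' _ h
    have h0 := congrFun h 0
    have h1 : p.2 = p'.2 := by
      funext i
      have := congrFun h i.succ
      simp only [Fin.cons_succ] at this
      linarith
    simp only [Fin.cons_zero] at h0
    rw [h1] at h0
    exact Prod.ext (by linarith) h1

theorem cell_disjoint (m : ℕ) (L r : ℤ) (hr : 1 ≤ r) (q q' : Fin m → ℤ) (h : q ≠ q') :
    Disjoint (cell m L r q) (cell m L r q') := by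
  rw [Finset.disjoint_left]
  intro x hx hx'
  unfold cell at hx hx'
  rw [Finset.mem_filter] at hx hx'
  apply h
  funext i
  have h1 := hx.2.1 i
  have h2 := hx'.2.1 i
  rcases lt_trichotomy (q i) (q' i) with h3 | h3 | h3
  · exfalso
    have : q i + 1 ≤ q' i := h3
    nlinarith
  · exact h3
  · exfalso
    have : q' i + 1 ≤ q i := h3
    nlinarith

theorem cell_inter_subset (m : ℕ) (L r : ℤ) (hr : 1 ≤ r) (q : Fin m → ℤ)
    (A' : Finset (Fin (m + 1) → ℤ)) (hA : A' ⊆ body m L) :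
    cell m L r q ∩ (A' + A') ⊆ near r q A' + near r q A' := by
  intro x hx
  rw [Finset.mem_inter, Finset.mem_add] at hx
  obtain ⟨hx, a, ha, b, hb, rfl⟩ := hx
  have key : ∀ a ∈ A', ∀ b ∈ A', a + b ∈ cell m L r q → a ∈ near r q A' := by
    intro a ha b hb hx
    unfold cell at hx
    rw [Finset.mem_filter] at hx
    have h1 := sq_add_sub a b
    have h2 := (mem_body.1 (hA ha)).2
    have h3 := (mem_body.1 (hA hb)).2
    have h4 := hx.2.2
    simp only [Pi.add_apply] at h4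
    have h5 : sq (a - b) < 4 * r ^ 2 := by linarith
    unfold near
    rw [Finset.mem_filter]
    refine ⟨ha, fun i => ?_⟩
    have h6 : (a i.succ - b i.succ) ^ 2 ≤ sq (a - b) := by
      unfold sq
      have := Finset.single_le_sum (f := fun i : Fin m => ((a - b) i.succ) ^ 2)
        (fun i _ => sq_nonneg _) (Finset.mem_univ i)
      simpa using this
    have h7 : (a i.succ - b i.succ) ^ 2 < (2 * r) ^ 2 := by
      have : (2 * r) ^ 2 = 4 * r ^ 2 := by ring
      linarith
    have h8 := abs_lt_of_sq_lt_sq' h7 (by linarith)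
    have h9 := hx.2.1 i
    simp only [Pi.add_apply] at h9
    constructor <;> nlinarith
  have hx' : b + a ∈ cell m L r q := by
    have : b + a = a + b := add_comm b a
    rw [this]
    exact hx
  exact Finset.add_mem_add (key a ha b hb hx) (key b hb a ha hx')

theorem sum_near_le (m : ℕ) (r G : ℤ) (hr : 1 ≤ r) (A' : Finset (Fin (m + 1) → ℤ)) :
    ∑ q ∈ idx m G, (near r q A').card ≤ 3 ^ m * A'.card := by
  have h1 : ∀ q, (near r q A').card = ∑ a ∈ A',
      if (∀ i : Fin m, r * (q i - 1) < a i.succ ∧ a i.succ < r * (q i + 2)) then 1 else 0 := by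
    intro q
    unfold near
    rw [Finset.card_filter]
  simp_rw [h1]
  rw [Finset.sum_comm]
  calc ∑ a ∈ A', ∑ q ∈ idx m G,
        (if (∀ i : Fin m, r * (q i - 1) < a i.succ ∧ a i.succ < r * (q i + 2)) then 1 else 0)
      ≤ ∑ _a ∈ A', 3 ^ m := by
        apply Finset.sum_le_sum
        intro a _
        rw [← Finset.card_filter]
        have hc : (Fintype.piFinset (fun i : Fin m =>
            Finset.Icc (a i.succ / r - 1) (a i.succ / r + 1))).card = 3 ^ m := by
          rw [Fintype.card_piFinset]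
          have : ∀ i : Fin m, (Finset.Icc (a i.succ / r - 1) (a i.succ / r + 1)).card = 3 := by
            intro i
            rw [Int.card_Icc]
            have : a i.succ / r + 1 + 1 - (a i.succ / r - 1) = 3 := by ring
            rw [this]
            rfl
          simp [this]
        rw [← hc]
        apply Finset.card_le_card
        intro q hq
        rw [Finset.mem_filter] at hq
        rw [Fintype.mem_piFinset]
        intro i
        rw [Finset.mem_Icc]
        have h2 := hq.2 i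
        have h3 : r * (a i.succ / r) + a i.succ % r = a i.succ := Int.mul_ediv_add_emod _ _
        have h4 : 0 ≤ a i.succ % r := Int.emod_nonneg _ (by omega)
        have h5 : a i.succ % r < r := Int.emod_lt_of_pos _ (by omega)
        constructor
        · by_contra hcon
          have : q i + 2 ≤ a i.succ / r := by omega
          nlinarith
        · by_contra hcon
          have : a i.succ / r + 1 ≤ q i - 1 := by omega
          nlinarith
    _ = 3 ^ m * A'.card := by
        rw [Finset.sum_const]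
        simp [mul_comm]

/-- few points of `A'` leave a large part of the boundary cells uncovered -/
theorem main_count (m : ℕ) (hm : 1 ≤ m) (r G : ℤ) (hr : 1 ≤ r) (hG : 1 ≤ G)
    (A' : Finset (Fin (m + 1) → ℤ)) (hA : A' ⊆ body m (r * G)) (X W : ℝ)
    (hX : X = 2 * (r : ℝ) ^ 2 * (2 * r) ^ m) (hW : W = (2 * (G : ℝ)) ^ m)
    (hc : 4 * 9 ^ m * (A'.card : ℝ) ^ 2 ≤ W ^ 2 * X) :
    ((A' + A').card : ℝ) + W * X / 2 ≤ (dbl m (r * G)).card := by
  have hrR : (1 : ℝ) ≤ r := by exact_mod_cast hr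
  have hGR : (1 : ℝ) ≤ G := by exact_mod_cast hG
  have hX0 : 0 ≤ X := by rw [hX]; positivity
  have hW0 : 0 ≤ W := by rw [hW]; positivity
  have hsub : A' + A' ⊆ dbl m (r * G) :=
    (Finset.add_subset_add hA hA).trans (body_add_subset m (r * G))
  obtain ⟨w, hw⟩ : ∃ w, w = Real.sqrt X := ⟨_, rfl⟩
  have hw0 : 0 ≤ w := by rw [hw]; exact Real.sqrt_nonneg _
  have hw2 : w ^ 2 = X := by rw [hw]; exact Real.sq_sqrt hX0
  -- each cell
  have hcell : ∀ q ∈ idx m G, X - w * ((near r q A').card : ℝ) ≤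
      ((cell m (r * G) r q \ (A' + A')).card : ℝ) := by
    intro q hq
    have h1 : X ≤ ((cell m (r * G) r q).card : ℝ) := by
      have h := card_cell_ge m hm r G hr hG q hq
      have h' : (((2 * r ^ 2).toNat * (2 * r).toNat ^ m : ℕ) : ℝ) ≤
          ((cell m (r * G) r q).card : ℝ) := by exact_mod_cast h
      have e1 : (((2 * r ^ 2).toNat : ℕ) : ℝ) = 2 * (r : ℝ) ^ 2 := by
        have : (((2 * r ^ 2).toNat : ℕ) : ℤ) = 2 * r ^ 2 := Int.toNat_of_nonneg (by positivity)
        exact_mod_cast this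
      have e2 : (((2 * r).toNat : ℕ) : ℝ) = 2 * (r : ℝ) := by
        have : (((2 * r).toNat : ℕ) : ℤ) = 2 * r := Int.toNat_of_nonneg (by linarith)
        exact_mod_cast this
      push_cast at h'
      rw [hX]
      calc 2 * (r : ℝ) ^ 2 * (2 * r) ^ m
          = (((2 * r ^ 2).toNat : ℕ) : ℝ) * (((2 * r).toNat : ℕ) : ℝ) ^ m := by rw [e1, e2]
        _ ≤ _ := h'
    have h2 : ((cell m (r * G) r q ∩ (A' + A')).card : ℝ) ≤ ((near r q A').card : ℝ) ^ 2 := by
      have h := Finset.card_le_card (cell_inter_subset m (r * G) r hr q A' hA)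
      have h' := Finset.card_add_le (s := near r q A') (t := near r q A')
      have : (cell m (r * G) r q ∩ (A' + A')).card ≤ (near r q A').card ^ 2 := by
        rw [pow_two]; exact h.trans h'
      exact_mod_cast this
    have h3 : ((cell m (r * G) r q \ (A' + A')).card : ℝ) +
        ((cell m (r * G) r q ∩ (A' + A')).card : ℝ) = ((cell m (r * G) r q).card : ℝ) := by
      have := Finset.card_sdiff_add_card_inter (cell m (r * G) r q) (A' + A')
      exact_mod_cast this
    have h4 : (0 : ℝ) ≤ ((near r q A').card : ℝ) := Nat.cast_nonneg _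
    have h5 : (0 : ℝ) ≤ ((cell m (r * G) r q \ (A' + A')).card : ℝ) := Nat.cast_nonneg _
    by_cases h6 : ((near r q A').card : ℝ) ≤ w
    · nlinarith
    · have h7 : w ≤ ((near r q A').card : ℝ) := le_of_lt (not_le.1 h6)
      nlinarith
  have hbi : ((idx m G).biUnion (fun q => cell m (r * G) r q \ (A' + A'))) ⊆
      dbl m (r * G) \ (A' + A') := by
    intro x hx
    rw [Finset.mem_biUnion] at hx
    obtain ⟨q, _, hx⟩ := hx
    rw [Finset.mem_sdiff] at hx ⊢
    refine ⟨?_, hx.2⟩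
    have := hx.1
    unfold cell at this
    exact (Finset.mem_filter.1 this).1
  have hcard : ((idx m G).biUnion (fun q => cell m (r * G) r q \ (A' + A'))).card =
      ∑ q ∈ idx m G, (cell m (r * G) r q \ (A' + A')).card := by
    apply Finset.card_biUnion
    intro q _ q' _ hqq
    exact (cell_disjoint m (r * G) r hr q q' hqq).mono Finset.sdiff_subset Finset.sdiff_subset
  have h1 : (∑ q ∈ idx m G, ((cell m (r * G) r q \ (A' + A')).card : ℝ)) ≤
      ((dbl m (r * G) \ (A' + A')).card : ℝ) := by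
    have := Finset.card_le_card hbi
    rw [hcard] at this
    exact_mod_cast this
  have h2 : ((dbl m (r * G) \ (A' + A')).card : ℝ) + ((A' + A').card : ℝ) =
      ((dbl m (r * G)).card : ℝ) := by
    have := Finset.card_sdiff_add_card_eq_card hsub
    exact_mod_cast this
  have h3 : (∑ q ∈ idx m G, (X - w * ((near r q A').card : ℝ))) ≤
      ∑ q ∈ idx m G, ((cell m (r * G) r q \ (A' + A')).card : ℝ) := Finset.sum_le_sum hcell
  have h4 : (∑ q ∈ idx m G, (X - w * ((near r q A').card : ℝ))) =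
      W * X - w * ((∑ q ∈ idx m G, (near r q A').card : ℕ) : ℝ) := by
    rw [Finset.sum_sub_distrib, ← Finset.mul_sum, Finset.sum_const, card_idx, nsmul_eq_mul]
    push_cast
    have e2 : (((2 * G).toNat : ℕ) : ℝ) = 2 * (G : ℝ) := by
      have : (((2 * G).toNat : ℕ) : ℤ) = 2 * G := Int.toNat_of_nonneg (by linarith)
      exact_mod_cast this
    rw [e2, ← hW]
  have h5 : ((∑ q ∈ idx m G, (near r q A').card : ℕ) : ℝ) ≤ 3 ^ m * (A'.card : ℝ) := by
    have := sum_near_le m r G hr A'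
    exact_mod_cast this
  have h6 : 2 * (3 ^ m * (A'.card : ℝ)) ≤ W * w := by
    apply le_of_sq_le_sq _ (mul_nonneg hW0 hw0)
    have e : (2 * (3 ^ m * (A'.card : ℝ))) ^ 2 = 4 * 9 ^ m * (A'.card : ℝ) ^ 2 := by
      have : (9 : ℝ) ^ m = (3 ^ m) ^ 2 := by
        rw [← pow_mul, mul_comm, pow_mul]; norm_num
      rw [this]; ring
    rw [e, mul_pow, hw2]
    exact hc
  have h7 : w * ((∑ q ∈ idx m G, (near r q A').card : ℕ) : ℝ) ≤ W * X / 2 := by
    calc w * ((∑ q ∈ idx m G, (near r q A').card : ℕ) : ℝ) ≤ w * (3 ^ m * (A'.card : ℝ)) :=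
          mul_le_mul_of_nonneg_left h5 hw0
      _ ≤ w * (W * w / 2) := mul_le_mul_of_nonneg_left (by linarith) hw0
      _ = W * w ^ 2 / 2 := by ring
      _ = W * X / 2 := by rw [hw2]
  linarith

theorem not_inParallel (m t : ℕ) (hm : 1 ≤ m) (L : ℤ) (hL : (t : ℤ) ≤ L) (hL1 : 1 ≤ L) :
    ¬ InParallelHyperplanes (m + 1) t (body m L) := by
  rintro ⟨v, s, hv, h⟩
  obtain ⟨i, hi⟩ : ∃ i, v i ≠ 0 := Function.ne_iff.1 hv
  obtain ⟨p, hp⟩ : ∃ p : Fin (m + 1) → ℤ, p = Fin.cons (m * L ^ 2) (fun _ => 0) := ⟨_, rfl⟩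
  obtain ⟨x, hx⟩ : ∃ x : ℕ → (Fin (m + 1) → ℤ), ∀ j : ℕ, x j = p + Pi.single i (j : ℤ) :=
    ⟨fun j => p + Pi.single i (j : ℤ), fun _ => rfl⟩
  have hm' : (1 : ℤ) ≤ m := by exact_mod_cast hm
  have hmL : L ≤ m * L ^ 2 := by
    have : L ≤ L ^ 2 := by nlinarith
    nlinarith [sq_nonneg L]
  have hmem : ∀ j : ℕ, (j : ℤ) ≤ L → x j ∈ body m L := by
    intro j hj
    have hs : ∀ l, 0 ≤ (Pi.single i (j : ℤ) : Fin (m + 1) → ℤ) l ∧
        (Pi.single i (j : ℤ) : Fin (m + 1) → ℤ) l ≤ j := by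
      intro l
      rw [Pi.single_apply]
      split_ifs <;> simp
    have h0 : x j 0 = m * L ^ 2 + (Pi.single i (j : ℤ) : Fin (m + 1) → ℤ) 0 := by
      rw [hx, hp]; simp
    have h1 : ∀ l : Fin m, x j l.succ = (Pi.single i (j : ℤ) : Fin (m + 1) → ℤ) l.succ := by
      intro l
      rw [hx, hp]; simp
    have h2 : ∀ l : Fin m, -L ≤ x j l.succ ∧ x j l.succ ≤ L := by
      intro l
      rw [h1]
      have := hs l.succ
      constructor <;> linarith
    have h3 := sq_le h2
    have h4 := hs 0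
    have h5 : (0 : ℤ) ≤ m * L ^ 2 := by positivity
    rw [mem_body]
    refine ⟨⟨⟨by linarith, by linarith⟩, h2⟩, by linarith⟩
  have hex : ∀ j : Fin (t + 1), ∃ l : Fin t, ∑ i, v i * ((x j.val) i : ℝ) = s l := by
    intro j
    apply h
    apply hmem
    have := j.2
    have : (j.val : ℤ) ≤ t := by omega
    linarith
  choose f hf using hex
  obtain ⟨j, j', hne, hjj⟩ := Fintype.exists_ne_map_eq_of_card_lt f (by simp)
  have h1 := hf j
  rw [hjj, ← hf j'] at h1
  have hsum : ∀ n : ℕ, ∑ i, v i * ((x n) i : ℝ) = (∑ i, v i * (p i : ℝ)) + n * v i := by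
    intro n
    rw [hx]
    simp only [Pi.add_apply, Int.cast_add, mul_add, Finset.sum_add_distrib]
    congr 1
    rw [Finset.sum_eq_single i]
    · simp; ring
    · intro b _ hb
      rw [Pi.single_eq_of_ne hb]
      simp
    · simp
  rw [hsum, hsum] at h1
  have h2 : ((j.val : ℝ) - j'.val) * v i = 0 := by linarith
  rcases mul_eq_zero.1 h2 with h3 | h3
  · apply hne
    apply Fin.ext
    have : (j.val : ℝ) = j'.val := by linarith
    exact_mod_cast this
  · exact hi h3

/-- the quantitative core -/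
theorem core (m : ℕ) (hm : 2 ≤ m) (G : ℤ) (hG : 1 ≤ G) (c : ℝ)
    (hcG : c ^ 2 * (4 * 9 ^ m * 3 ^ (m + 1) * m) ≤ (G : ℝ) ^ (m - 2)) (ε : ℝ)
    (hε : ε = 1 / (3 ^ (m + 2) * m * G ^ 2)) (t : ℕ) :
    ∃ (n : ℕ) (A : Finset (Fin (m + 1) → ℤ)), A.card = n ∧ ¬ InParallelHyperplanes (m + 1) t A ∧
      ∀ A' : Finset (Fin (m + 1) → ℤ), A' ⊆ A → (A'.card : ℝ) ≤ c * Real.sqrt n →
        ((A' + A').card : ℝ) < (2 ^ (m + 1) - ε) * n := by
  have hGR : (1 : ℝ) ≤ G := by exact_mod_cast hG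
  have hmR : (2 : ℝ) ≤ m := by exact_mod_cast hm
  have hε0 : 0 < ε := by rw [hε]; positivity
  obtain ⟨r₀, hr₀⟩ := exists_nat_gt (2 ^ (m + 1) / ε)
  obtain ⟨r, hr⟩ : ∃ r : ℤ, r = max (max (r₀ : ℤ) t) 1 := ⟨_, rfl⟩
  have hr1 : 1 ≤ r := by rw [hr]; exact le_max_right _ _
  have hrt : (t : ℤ) ≤ r := by rw [hr]; exact (le_max_right _ _).trans (le_max_left _ _)
  have hrr : (r₀ : ℤ) ≤ r := by rw [hr]; exact (le_max_left _ _).trans (le_max_left _ _)
  have hrR : (1 : ℝ) ≤ r := by exact_mod_cast hr1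
  have hrrR : (r₀ : ℝ) ≤ r := by exact_mod_cast hrr
  obtain ⟨L, hL⟩ : ∃ L : ℤ, L = r * G := ⟨_, rfl⟩
  have hrL : r ≤ L := by rw [hL]; nlinarith
  have hL1 : 1 ≤ L := by linarith
  have hLR : (L : ℝ) = r * G := by rw [hL]; push_cast; ring
  have hL1R : (1 : ℝ) ≤ L := by exact_mod_cast hL1
  have hrLR : (r : ℝ) ≤ L := by exact_mod_cast hrL
  refine ⟨(body m L).card, body m L, rfl,
    not_inParallel m t (by omega) L (by linarith) hL1, fun A' hA' hcard => ?_⟩
  obtain ⟨n, hn⟩ : ∃ n : ℝ, n = ((body m L).card : ℝ) := ⟨_, rfl⟩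
  rw [← hn] at hcard ⊢
  have hn0 : 0 ≤ n := by rw [hn]; exact Nat.cast_nonneg _
  obtain ⟨Y, hY⟩ : ∃ Y : ℝ, Y = (2 * (L : ℝ) + 1) ^ m := ⟨_, rfl⟩
  have hY0 : 0 < Y := by rw [hY]; positivity
  have hYn : (((2 * L + 1).toNat : ℕ) : ℝ) = 2 * (L : ℝ) + 1 := by
    have : (((2 * L + 1).toNat : ℕ) : ℤ) = 2 * L + 1 := Int.toNat_of_nonneg (by linarith)
    exact_mod_cast this
  -- lower bound for n
  have hnlow : (m * (L : ℝ) ^ 2 + 1) * Y ≤ n := by
    have h := le_card_body m L
    have h' : (((m * L ^ 2 + 1).toNat * (2 * L + 1).toNat ^ m : ℕ) : ℝ) ≤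
      ((body m L).card : ℝ) := by exact_mod_cast h
    have e1 : (((m * L ^ 2 + 1).toNat : ℕ) : ℝ) = m * (L : ℝ) ^ 2 + 1 := by
      have : (((m * L ^ 2 + 1).toNat : ℕ) : ℤ) = m * L ^ 2 + 1 :=
        Int.toNat_of_nonneg (by positivity)
      exact_mod_cast this
    push_cast at h'
    rw [hn, hY, ← hYn, ← e1]
    exact h'
  have hnpos : 0 < n := lt_of_lt_of_le (by positivity) hnlow
  -- upper bound for n
  have hnup : n ≤ 3 ^ (m + 1) * m * (L : ℝ) ^ (m + 2) := by
    have h := card_body_le m L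
    have h' : ((body m L).card : ℝ) ≤
        (((2 * m * L ^ 2 + 1).toNat * (2 * L + 1).toNat ^ m : ℕ) : ℝ) := by exact_mod_cast h
    have e1 : (((2 * m * L ^ 2 + 1).toNat : ℕ) : ℝ) = 2 * m * (L : ℝ) ^ 2 + 1 := by
      have : (((2 * m * L ^ 2 + 1).toNat : ℕ) : ℤ) = 2 * m * L ^ 2 + 1 :=
        Int.toNat_of_nonneg (by positivity)
      exact_mod_cast this
    rw [Nat.cast_mul, Nat.cast_pow, e1, hYn, ← hn] at h'
    have h2 : (2 * (L : ℝ) + 1) ^ m ≤ (3 * L) ^ m := by
      apply pow_le_pow_left₀ (by positivity)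
      linarith
    have h3 : 2 * m * (L : ℝ) ^ 2 + 1 ≤ 3 * m * (L : ℝ) ^ 2 := by nlinarith [sq_nonneg (L : ℝ)]
    calc n ≤ (2 * m * (L : ℝ) ^ 2 + 1) * (2 * (L : ℝ) + 1) ^ m := h'
      _ ≤ (3 * m * (L : ℝ) ^ 2) * (3 * L) ^ m :=
          mul_le_mul h3 h2 (by positivity) (by positivity)
      _ = _ := by rw [mul_pow]; ring
  -- the doubled body
  have hdbl : ((dbl m L).card : ℝ) ≤ 2 ^ (m + 1) * (n + m * L * Y) := by
    have h1 := card_dbl_le m L (by linarith)
    have h2 := card_big_le m L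
    have h3 : (dbl m L).card ≤ 2 ^ (m + 1) *
        ((body m L).card + (m * L).toNat * (2 * L + 1).toNat ^ m) :=
      h1.trans (Nat.mul_le_mul_left _ h2)
    have h4 : ((dbl m L).card : ℝ) ≤ ((2 ^ (m + 1) *
        ((body m L).card + (m * L).toNat * (2 * L + 1).toNat ^ m) : ℕ) : ℝ) := by
      exact_mod_cast h3
    have e1 : (((m * L).toNat : ℕ) : ℝ) = m * (L : ℝ) := by
      have : (((m * L).toNat : ℕ) : ℤ) = m * L := Int.toNat_of_nonneg (by positivity)
      exact_mod_cast this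
    push_cast at h4
    rw [e1, hYn, ← hn, ← hY] at h4
    exact h4
  have hLY : m * (L : ℝ) * Y * L ≤ n := by nlinarith
  -- uncovered part
  obtain ⟨X, hX⟩ : ∃ X : ℝ, X = 2 * (r : ℝ) ^ 2 * (2 * r) ^ m := ⟨_, rfl⟩
  obtain ⟨W, hW⟩ : ∃ W : ℝ, W = (2 * (G : ℝ)) ^ m := ⟨_, rfl⟩
  have hX0 : 0 ≤ X := by rw [hX]; positivity
  have hXr : 2 * (r : ℝ) ^ (m + 2) ≤ X := by
    rw [hX, mul_pow]
    have : (1 : ℝ) ≤ 2 ^ m := one_le_pow₀ (by norm_num)
    have h2 : (0 : ℝ) ≤ r ^ (m + 2) := by positivity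
    calc 2 * (r : ℝ) ^ (m + 2) = 2 * (1 * r ^ (m + 2)) := by ring
      _ ≤ 2 * (2 ^ m * r ^ (m + 2)) := by nlinarith
      _ = _ := by ring
  have hWG : (G : ℝ) ^ m ≤ W := by
    rw [hW]
    apply pow_le_pow_left₀ (by positivity)
    linarith
  have hW0 : 0 ≤ W := le_trans (by positivity) hWG
  have hA2 : (A'.card : ℝ) ^ 2 ≤ c ^ 2 * n := by
    calc (A'.card : ℝ) ^ 2 ≤ (c * Real.sqrt n) ^ 2 :=
          pow_le_pow_left₀ (Nat.cast_nonneg _) hcard 2
      _ = c ^ 2 * n := by rw [mul_pow, Real.sq_sqrt hn0]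
  have hcond : 4 * 9 ^ m * (A'.card : ℝ) ^ 2 ≤ W ^ 2 * X := by
    calc 4 * 9 ^ m * (A'.card : ℝ) ^ 2 ≤ 4 * 9 ^ m * (c ^ 2 * n) :=
          mul_le_mul_of_nonneg_left hA2 (by positivity)
      _ ≤ 4 * 9 ^ m * (c ^ 2 * (3 ^ (m + 1) * m * (L : ℝ) ^ (m + 2))) := by
          apply mul_le_mul_of_nonneg_left _ (by positivity)
          exact mul_le_mul_of_nonneg_left hnup (by positivity)
      _ = (c ^ 2 * (4 * 9 ^ m * 3 ^ (m + 1) * m)) * (L : ℝ) ^ (m + 2) := by ring
      _ ≤ (G : ℝ) ^ (m - 2) * (L : ℝ) ^ (m + 2) :=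
          mul_le_mul_of_nonneg_right hcG (by positivity)
      _ = (G : ℝ) ^ (m - 2) * (G : ℝ) ^ (m + 2) * r ^ (m + 2) := by
          rw [hLR, mul_pow]; ring
      _ = ((G : ℝ) ^ m) ^ 2 * r ^ (m + 2) := by
          rw [← pow_add, ← pow_mul]
          congr 2
          omega
      _ ≤ W ^ 2 * X := by
          apply mul_le_mul _ _ (by positivity) (by positivity)
          · exact pow_le_pow_left₀ (by positivity) hWG 2
          · have : (0 : ℝ) ≤ r ^ (m + 2) := by positivity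
            linarith
  have hmain := main_count m (by omega) r G hr1 hG A' (by rw [← hL]; exact hA') X W hX hW hcond
  rw [← hL] at hmain
  have hunc : 3 * ε * n ≤ W * X / 2 := by
    have h1 : 3 * ε * (3 ^ (m + 1) * m * (L : ℝ) ^ (m + 2)) = G ^ m * r ^ (m + 2) := by
      rw [hε, hLR, mul_pow]
      have hG2 : (G : ℝ) ^ (m + 2) = G ^ m * G ^ 2 := by ring
      rw [hG2]
      field_simp
      ring
    calc 3 * ε * n ≤ 3 * ε * (3 ^ (m + 1) * m * (L : ℝ) ^ (m + 2)) :=
          mul_le_mul_of_nonneg_left hnup (by positivity)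
      _ = (G : ℝ) ^ m * r ^ (m + 2) := h1
      _ ≤ W * (X / 2) := by
          apply mul_le_mul hWG (by linarith) (by positivity) hW0
      _ = W * X / 2 := by ring
  have herr : 2 ^ (m + 1) * (m * L * Y) ≤ ε * n := by
    have h1 : (2 : ℝ) ^ (m + 1) ≤ ε * L := by
      have h2 : 2 ^ (m + 1) / ε < L := lt_of_lt_of_le hr₀ (hrrR.trans hrLR)
      rw [div_lt_iff₀ hε0] at h2
      linarith
    calc 2 ^ (m + 1) * (m * L * Y) ≤ ε * L * (m * L * Y) :=
          mul_le_mul_of_nonneg_right h1 (by positivity)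
      _ = ε * (m * L * Y * L) := by ring
      _ ≤ ε * n := mul_le_mul_of_nonneg_left hLY hε0.le
  have hεn : 0 < ε * n := mul_pos hε0 hnpos
  nlinarith

/-- For every `k ≥ 4` there is no constant `c(k)`, independent of `ε`, with the property of Q1. -/
theorem result (k : ℕ) (hk : 4 ≤ k) : ∀ c : ℝ, 0 < c → ∃ ε : ℝ, 0 < ε ∧ ∀ t : ℕ,
    ∃ (n : ℕ) (A : Finset (Fin k → ℤ)), A.card = n ∧ ¬ InParallelHyperplanes k t A ∧
      ∀ A' : Finset (Fin k → ℤ), A' ⊆ A → (A'.card : ℝ) ≤ c * Real.sqrt n →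
        ((A' + A').card : ℝ) < (2 ^ k - ε) * n := by
  obtain ⟨m, rfl⟩ : ∃ m, k = m + 1 := ⟨k - 1, by omega⟩
  have hm : 3 ≤ m := by omega
  intro c hc
  obtain ⟨G₀, hG₀⟩ := exists_nat_gt (c ^ 2 * (4 * 9 ^ m * 3 ^ (m + 1) * m))
  obtain ⟨G, hG⟩ : ∃ G : ℕ, G = G₀ + 1 := ⟨_, rfl⟩
  have hG1 : (1 : ℝ) ≤ (G : ℝ) := by rw [hG]; push_cast; linarith [(Nat.cast_nonneg G₀ : (0:ℝ) ≤ G₀)]
  have hG2 : c ^ 2 * (4 * 9 ^ m * 3 ^ (m + 1) * m) ≤ ((G : ℤ) : ℝ) ^ (m - 2) := by
    have h1 : (G : ℝ) ≤ (G : ℝ) ^ (m - 2) := by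
      calc (G : ℝ) = (G : ℝ) ^ 1 := (pow_one _).symm
        _ ≤ (G : ℝ) ^ (m - 2) := pow_le_pow_right₀ hG1 (by omega)
    have h2 : (G₀ : ℝ) ≤ G := by rw [hG]; push_cast; linarith
    rw [Int.cast_natCast]
    linarith
  refine ⟨1 / (3 ^ (m + 2) * m * ((G : ℤ) : ℝ) ^ 2), ?_, fun t => ?_⟩
  · have : (0 : ℝ) < m := by exact_mod_cast (by omega : 0 < m)
    have : (0 : ℝ) < ((G : ℤ) : ℝ) := by rw [Int.cast_natCast]; linarith
    positivity
  · exact core m (by omega) G (by omega) c hG2 _ rfl t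

end

end Pool.Agent.Results.MP_0aa4f4_co.NoUniformConstant
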